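import Pool.Agent.Helper98.TW.Basic

/-!
Sheet TW (MP_7a8f48_an), row TWS: self-twists of small order.
-/

set_option linter.unusedSectionVars false

open MeasureTheory Filter Topology Finset
open scoped ComplexConjugate

namespace Pool.Agent.Helper99.TWR

open Pool.Agent.Helper16.AZ (T mm)
open Pool.Agent.Helper98.TW

/-- some power of order at most `m` of a unitary matrix has nonzero trace (Cayley-Hamilton) -/
theorem exists_trace_ne_zero {m : ℕ} (hm : 1 ≤ m) (A : Matrix (Fin m) (Fin m) ℂ)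
    (hA : A ∈ Matrix.unitaryGroup (Fin m) ℂ) : ∃ i, 1 ≤ i ∧ i ≤ m ∧ (A ^ i).trace ≠ 0 := by
  by_contra hcon
  push Not at hcon
  have h1 : A.charpoly.natDegree = m := by simp
  have h2 := A.aeval_self_charpoly
  rw [Polynomial.aeval_eq_sum_range, h1] at h2
  have h3 := congrArg Matrix.trace h2
  rw [Matrix.trace_sum, Finset.sum_eq_single 0] at h3
  · rw [Matrix.trace_smul, pow_zero, Matrix.trace_one, Fintype.card_fin, Matrix.trace_zero,
      smul_eq_mul] at h3
    have hm0 : (m : ℂ) ≠ 0 := by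
      have : m ≠ 0 := by omega
      exact_mod_cast this
    have h4 : A.charpoly.coeff 0 = 0 := (mul_eq_zero.1 h3).resolve_right hm0
    have h5 : A.det = 0 := by rw [Matrix.det_eq_sign_charpoly_coeff, h4, mul_zero]
    have h6 := (Matrix.mem_unitaryGroup_iff).1 hA
    have h7 := congrArg Matrix.det h6
    rw [Matrix.det_mul, h5, zero_mul, Matrix.det_one] at h7
    exact zero_ne_one h7
  · intro i hi hi0
    rw [Matrix.trace_smul, hcon i (by omega) (by simpa [Nat.lt_succ_iff] using hi), smul_zero]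
  · simp

section

variable {Ω : Type} [MeasurableSpace Ω] {μ : Measure Ω}

theorem am_matrix_pow {C : SA Ω} {m : ℕ} {W : Ω → Matrix (Fin m) (Fin m) ℂ}
    (hW : ∀ a b, AM μ C (fun x => W x a b)) (i : ℕ) :
    ∀ a b, AM μ C (fun x => (W x ^ i) a b) := by
  induction i with
  | zero =>
    intro a b
    simpa using am_const (μ := μ) (𝒜 := C) ((1 : Matrix (Fin m) (Fin m) ℂ) a b)
  | succ i ih =>
    intro a b
    have : AM μ C (fun x => ∑ c, (W x ^ i) a c * W x c b) :=
      am_finset_sum _ fun c _ => am_mul (ih a c) (hW c b)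
    simpa only [pow_succ, Matrix.mul_apply] using this

theorem am_trace_pow {C : SA Ω} {m : ℕ} {W : Ω → Matrix (Fin m) (Fin m) ℂ}
    (hW : ∀ a b, AM μ C (fun x => W x a b)) (i : ℕ) :
    AM μ C (fun x => (W x ^ i).trace) := by
  have : AM μ C (fun x => ∑ c, (W x ^ i) c c) :=
    am_finset_sum _ fun c _ => am_matrix_pow hW i c c
  simpa only [Matrix.trace, Matrix.diag] using this

end

theorem conj_pow {m : ℕ} (r w : Matrix (Fin m) (Fin m) ℂ)
    (hr : r ∈ Matrix.unitaryGroup (Fin m) ℂ) (i : ℕ) :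
    (r * w * r.conjTranspose) ^ i = r * w ^ i * r.conjTranspose := by
  have h1 : r * r.conjTranspose = 1 := (Matrix.mem_unitaryGroup_iff).1 hr
  have h2 : r.conjTranspose * r = 1 := (Matrix.mem_unitaryGroup_iff').1 hr
  induction i with
  | zero => simp [h1]
  | succ i ih =>
    rw [pow_succ, ih, pow_succ]
    calc r * w ^ i * r.conjTranspose * (r * w * r.conjTranspose)
        = r * w ^ i * (r.conjTranspose * r) * w * r.conjTranspose := by noncomm_ring
      _ = r * (w ^ i * w) * r.conjTranspose := by rw [h2]; noncomm_ring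

theorem TWS : ST_TWS := by
  intro Ω _ μ _ R R' C m ρ W ψ hS hR hC hm hρ hρu hW hWu hψ hinc hWR
  have key : ∀ i : ℕ, ∃ c : ℂ, (fun x => (W x ^ i).trace * (conj (ψ x)) ^ i) =ᵐ[μ]
      fun _ => c := by
    intro i
    have hmeas : AEStronglyMeasurable (fun x => (W x ^ i).trace * (conj (ψ x)) ^ i) μ := by
      refine AEStronglyMeasurable.mul ?_ ?_
      · exact AEStronglyMeasurable.mono hC.1 (am_trace_pow hW i)
      · exact ((hψ.conj).1.pow_const i).aestronglyMeasurable
    refine hR.ae_eq_const_of_ae_eq_comp_ae hmeas ?_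
    filter_upwards [hWR, hρu, (ae_comp hS.mp hψ.2), hψ.2] with x h1 h2 h3 h4
    have h2' : (ρ x).conjTranspose * ρ x = 1 := (Matrix.mem_unitaryGroup_iff').1 h2
    have h6 : ψ (R x) * conj (ψ (R x)) = 1 := by
      rw [Complex.mul_conj, Complex.normSq_eq_norm_sq, h3]
      simp
    have h7 : ((W (R x)) ^ i).trace = (ψ (R x) * conj (ψ x)) ^ i * (W x ^ i).trace := by
      rw [h1, smul_pow, conj_pow _ _ h2, Matrix.trace_smul, smul_eq_mul, Matrix.trace_mul_comm,
        ← Matrix.mul_assoc, h2', Matrix.one_mul]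
    change ((W (R x)) ^ i).trace * (conj (ψ (R x))) ^ i = (W x ^ i).trace * (conj (ψ x)) ^ i
    rw [h7]
    calc (ψ (R x) * conj (ψ x)) ^ i * (W x ^ i).trace * (conj (ψ (R x))) ^ i
        = (ψ (R x) * conj (ψ (R x))) ^ i * ((W x ^ i).trace * (conj (ψ x)) ^ i) := by
          rw [mul_pow, mul_pow]; ring
      _ = _ := by rw [h6, one_pow, one_mul]
  choose c hc using key
  have hex : ∃ i, 1 ≤ i ∧ i ≤ m ∧ c i ≠ 0 := by
    by_contra hcon
    push Not at hcon
    have hall : ∀ᵐ x ∂μ, ∀ i, (W x ^ i).trace * (conj (ψ x)) ^ i = c i := ae_all_iff.2 hc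
    have hfalse : ∀ᵐ x ∂μ, False := by
      filter_upwards [hall, hWu, hψ.2] with x h1 h2 h3
      obtain ⟨i, hi1, hi2, hi3⟩ := exists_trace_ne_zero hm (W x) h2
      have h4 := h1 i
      rw [hcon i hi1 hi2] at h4
      rcases mul_eq_zero.1 h4 with h5 | h5
      · exact hi3 h5
      · have h6 : ‖(conj (ψ x)) ^ i‖ = 0 := by rw [h5, norm_zero]
        rw [norm_pow, RCLike.norm_conj, h3, one_pow] at h6
        exact one_ne_zero h6
    have := hfalse.exists
    exact this.elim fun _ h => h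
  obtain ⟨i, hi1, hi2, hi3⟩ := hex
  refine ⟨i, hi1, hi2.trans (Nat.le_self_pow two_ne_zero m), ?_⟩
  refine am_congr (am_mul (am_const (c i)⁻¹) (am_trace_pow hW i)) ?_
  filter_upwards [hc i, hψ.mul_conj] with x h1 h2
  have h3 : (W x ^ i).trace = c i * ψ x ^ i := by
    rw [← h1]
    calc (W x ^ i).trace = (W x ^ i).trace * (ψ x * conj (ψ x)) ^ i := by
          rw [h2, one_pow, mul_one]
      _ = (W x ^ i).trace * (conj (ψ x)) ^ i * ψ x ^ i := by rw [mul_pow]; ring
  change (c i)⁻¹ * (W x ^ i).trace = ψ x ^ i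
  rw [h3, ← mul_assoc, inv_mul_cancel₀ hi3, one_mul]

end Pool.Agent.Helper99.TWR
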