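import Pool.Agent.Helper98.TW.Basic

/-!
Sheet TW (MP_7a8f48_an), row TRM: truncated joinings.
-/

set_option linter.unusedSectionVars false

open MeasureTheory Filter Topology Finset
open scoped ComplexConjugate

namespace Pool.Agent.Helper99.TWR

open Pool.Agent.Helper16.AZ (T mm)
open Pool.Agent.Helper98.TW

variable {N : ℕ} {lev : Fin N → ℕ}

theorem tr_tr {a b : ℕ} (h : a ≤ b) (x : T N) : tr lev a (tr lev b x) = tr lev a x := by
  funext i
  simp only [tr]
  by_cases hi : lev i < a
  · rw [if_pos hi, if_pos (lt_of_lt_of_le hi h), if_pos hi]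
  · rw [if_neg hi, if_neg hi]

theorem tr_SS {f : Fin N → T N → U} (hf : Tow lev f) (l : ℕ) (x : T N) :
    tr lev l (SS f (tr lev l x)) = tr lev l (SS f x) := by
  funext i
  by_cases hi : lev i < l
  · have h1 : f i (tr lev l x) = f i x := by
      rw [← hf.dep i (tr lev l x), tr_tr hi.le, hf.dep]
    change (if lev i < l then tr lev l x i + f i (tr lev l x) else 0) =
      if lev i < l then x i + f i x else 0
    rw [if_pos hi, if_pos hi, h1]
    change (if lev i < l then x i else 0) + f i x = x i + f i x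
    rw [if_pos hi]
  · change (if lev i < l then tr lev l x i + f i (tr lev l x) else 0) =
      if lev i < l then x i + f i x else 0
    rw [if_neg hi, if_neg hi]

theorem tr_iter {f : Fin N → T N → U} (hf : Tow lev f) (l : ℕ) (n : ℕ) (x : T N) :
    tr lev l ((SS f)^[n] (tr lev l x)) = tr lev l ((SS f)^[n] x) := by
  induction n generalizing x with
  | zero => exact tr_tr le_rfl x
  | succ n ih =>
    rw [Function.iterate_succ_apply', Function.iterate_succ_apply', ← tr_SS hf, ih, tr_SS hf]

theorem tr_measurable (l : ℕ) : Measurable (tr lev l) := by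
  refine measurable_pi_lambda _ fun i => ?_
  by_cases hi : lev i < l
  · simpa [tr, hi] using measurable_pi_apply (X := fun _ => U) i
  · simp [tr, hi]

theorem SS_measurable {f : Fin N → T N → U} (hf : Tow lev f) : Measurable (SS f) :=
  measurable_pi_lambda _ fun i => (measurable_pi_apply i).add (hf.meas i)

theorem trp_measurable (l j : ℕ) : Measurable (trp lev l j) :=
  ((tr_measurable l).comp measurable_fst).prodMk ((tr_measurable j).comp measurable_snd)

theorem trp_trp (l j : ℕ) (z : T N × T N) : trp lev l j (trp lev l j z) = trp lev l j z := by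
  simp only [trp, tr_tr le_rfl]

theorem trp_TT {f : Fin N → T N → U} (hf : Tow lev f) (p q l j : ℕ) (z : T N × T N) :
    trp lev l j (Prod.map (SS f)^[p] (SS f)^[q] (trp lev l j z)) =
      trp lev l j (Prod.map (SS f)^[p] (SS f)^[q] z) := by
  simp only [trp, Prod.map, tr_iter hf]

theorem TT_measurable {f : Fin N → T N → U} (hf : Tow lev f) (p q : ℕ) :
    Measurable (Prod.map (SS f)^[p] (SS f)^[q]) :=
  ((SS_measurable hf).iterate p).prodMap ((SS_measurable hf).iterate q)

theorem TT_inv {f f' : Fin N → T N → U} (h : TI lev f f') (p q : ℕ) (z : T N × T N) :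
    Prod.map (SS f')^[p] (SS f')^[q] (Prod.map (SS f)^[p] (SS f)^[q] z) = z := by
  have key : ∀ n, Function.LeftInverse (SS f')^[n] (SS f)^[n] := fun n =>
    Function.LeftInverse.iterate h.l n
  simp only [Prod.map, key _ _]

theorem TI.symm' {f f' : Fin N → T N → U} (h : TI lev f f') : TI lev f' f := ⟨h.t', h.t, h.r, h.l⟩

theorem jo_eq (l j : ℕ) : jo (A1 lev l) (B1 lev j) =
    cm (trp lev l j) (inferInstance : MeasurableSpace (T N × T N)) := by
  unfold jo A1 B1 cm AL cm
  change MeasurableSpace.comap Prod.fst (MeasurableSpace.comap (tr lev l) inferInstance) ⊔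
    MeasurableSpace.comap Prod.snd (MeasurableSpace.comap (tr lev j) inferInstance) =
    MeasurableSpace.comap (trp lev l j) (MeasurableSpace.comap Prod.fst inferInstance ⊔
      MeasurableSpace.comap Prod.snd inferInstance)
  rw [MeasurableSpace.comap_sup, MeasurableSpace.comap_comp, MeasurableSpace.comap_comp,
    MeasurableSpace.comap_comp, MeasurableSpace.comap_comp]
  rfl

theorem am_cm_comp {Ω : Type} [MeasurableSpace Ω] {μ : Measure Ω} {g : Ω → Ω} {R : Ω → Ω}
    (hg : Measurable g) (hR : Measurable R) (hRp : MeasurePreserving R μ μ)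
    (hc : ∀ z, g (R (g z)) = g (R z)) {F : Ω → ℂ}
    (hF : AM μ (cm g (inferInstance : MeasurableSpace Ω)) F) :
    AM μ (cm g (inferInstance : MeasurableSpace Ω)) (fun x => F (R x)) := by
  obtain ⟨G, hG, hFG⟩ := am_iff.1 hF
  obtain ⟨H, hH, rfl⟩ : ∃ H : Ω → ℂ, Measurable H ∧ G = H ∘ g := hG.exists_eq_measurable_comp
  refine am_iff.2 ⟨fun x => H (g (R (g x))), ?_, ?_⟩
  · exact (hH.comp (hg.comp hR)).comp (comap_measurable g)
  · filter_upwards [hRp.quasiMeasurePreserving.ae hFG] with x hx
    rw [hx, hc]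
    rfl

theorem TRM : ST_TRM := by
  intro N lev f f' p q κ hT hJ l j
  have := hJ.prob
  have hm := TT_measurable hT.t p q
  have hm' := TT_measurable hT.t' p q
  have hmp : MeasurePreserving (Prod.map (SS f)^[p] (SS f)^[q]) κ κ := hJ.erg.toMeasurePreserving
  have hmp' : MeasurePreserving (Prod.map (SS f')^[p] (SS f')^[q]) κ κ := by
    refine ⟨hm', ?_⟩
    conv_lhs => rw [← hmp.map_eq]
    rw [Measure.map_map hm' hm]
    have : (Prod.map (SS f')^[p] (SS f')^[q]) ∘ (Prod.map (SS f)^[p] (SS f)^[q]) = id :=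
      funext fun z => TT_inv hT p q z
    rw [this, Measure.map_id]
  have hS : Sys κ (Prod.map (SS f)^[p] (SS f)^[q]) (Prod.map (SS f')^[p] (SS f')^[q]) :=
    ⟨hmp, hmp', Eventually.of_forall (TT_inv hT p q),
      Eventually.of_forall (TT_inv (TI.symm' hT) p q)⟩
  have htr : MeasurePreserving (trp lev l j) κ (κ.map (trp lev l j)) :=
    ⟨trp_measurable l j, rfl⟩
  have key : ∀ {g g' : Fin N → T N → U}, TI lev g g' →
      MeasurePreserving (Prod.map (SS g)^[p] (SS g)^[q]) κ κ →
      MeasurePreserving (fun z => trp lev l j (Prod.map (SS g)^[p] (SS g)^[q] z))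
        (κ.map (trp lev l j)) (κ.map (trp lev l j)) := by
    intro g g' hg hgp
    have hgm := TT_measurable hg.t p q
    refine ⟨(trp_measurable l j).comp hgm, ?_⟩
    have h0 := Measure.map_map (μ := κ) (f := trp lev l j) (g := fun z => trp lev l j
      (Prod.map (SS g)^[p] (SS g)^[q] z)) ((trp_measurable l j).comp hgm) (trp_measurable l j)
    refine h0.trans ?_
    have : (fun z => trp lev l j (Prod.map (SS g)^[p] (SS g)^[q] z)) ∘ (trp lev l j) =
        (trp lev l j) ∘ (Prod.map (SS g)^[p] (SS g)^[q]) := funext fun z => trp_TT hg.t p q l j z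
    change Measure.map ((fun z => trp lev l j (Prod.map (SS g)^[p] (SS g)^[q] z)) ∘
      (trp lev l j)) κ = _
    rw [this, ← Measure.map_map (trp_measurable l j) hgm, hgp.map_eq]
  have key2 : ∀ {g g' : Fin N → T N → U}, TI lev g g' →
      ∀ᵐ x ∂(κ.map (trp lev l j)),
        trp lev l j (Prod.map (SS g')^[p] (SS g')^[q]
          (trp lev l j (Prod.map (SS g)^[p] (SS g)^[q] x))) = x := by
    intro g g' hg
    have hgm := TT_measurable hg.t p q
    have hgm' := TT_measurable hg.t' p q
    have hms : MeasurableSet {x : T N × T N | trp lev l j (Prod.map (SS g')^[p] (SS g')^[q]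
          (trp lev l j (Prod.map (SS g)^[p] (SS g)^[q] x))) = x} := by
      have h1 : Measurable fun x : T N × T N => trp lev l j (Prod.map (SS g')^[p] (SS g')^[q]
          (trp lev l j (Prod.map (SS g)^[p] (SS g)^[q] x))) :=
        (trp_measurable l j).comp (hgm'.comp ((trp_measurable l j).comp hgm))
      exact measurableSet_eq_fun h1 measurable_id
    rw [ae_map_iff (trp_measurable l j).aemeasurable hms]
    refine Eventually.of_forall fun z => ?_
    rw [trp_TT hg.t, trp_TT hg.t', TT_inv hg]
  refine ⟨Measure.isProbabilityMeasure_map (trp_measurable l j).aemeasurable,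
    ⟨key hT hmp, key (TI.symm' hT) hmp', key2 hT, key2 (TI.symm' hT)⟩,
    ⟨key hT hmp, ?_⟩, hS, ⟨?_, ?_⟩, jo_eq l j⟩
  · refine htr.preErgodic_of_preErgodic_semiconj hJ.erg.toPreErgodic ?_
    intro z
    exact (trp_TT hT.t p q l j z).symm
  · rw [jo_eq]
    exact (trp_measurable l j).comap_le
  · intro F hF
    rw [jo_eq] at hF ⊢
    exact ⟨am_cm_comp (trp_measurable l j) hm hmp (trp_TT hT.t p q l j) hF,
      am_cm_comp (trp_measurable l j) hm' hmp' (trp_TT hT.t' p q l j) hF⟩

end Pool.Agent.Helper99.TWR
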