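import Pool.Agent.Helper98.TW.Basic
import Pool.Agent.Helper99.TWR.TRM
import Pool.Agent.Helper46.TWR.Ex
import Pool.Agent.Helper73.TWR.CEC
import Pool.Agent.Helper13.TWR.LZ

/-!
Sheet TW (MP_7a8f48_an), row VIN: invariance under the translations of a free level.
-/

set_option linter.unusedSectionVars false

open MeasureTheory Filter Topology Finset
open scoped ComplexConjugate

namespace Pool.Agent.Helper99.TWR

open Pool.Agent.Helper16.AZ (T mm)
open Pool.Agent.Helper98.TW
open UnitAddTorus (mFourier)
open Pool.Agent.Helper46.TWR (ex_prod ex_norm ex_cont ex_meas ex_uf ex_zero ex_addx ex_mul_conj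
  ex_SS af af_dep af_meas)
open Pool.Agent.Helper73.TWR (pull)

variable {N : ℕ} {lev : Fin N → ℕ}

/-- finite measures on the torus are determined by their Fourier coefficients -/
theorem measure_ext_ex {ν₁ ν₂ : Measure (T N)} [IsFiniteMeasure ν₁] [IsFiniteMeasure ν₂]
    (h : ∀ a : Fin N → ℤ, ∫ x, ex a x ∂ν₁ = ∫ x, ex a x ∂ν₂) : ν₁ = ν₂ := by
  have hint : ∀ (ν : Measure (T N)) [IsFiniteMeasure ν] (G : C(T N, ℂ)), Integrable (fun x => G x) ν :=
    fun ν _ G => (BoundedContinuousFunction.mkOfCompact G).integrable ν
  have hcont : ∀ (ν : Measure (T N)) [IsFiniteMeasure ν],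
      Continuous (fun G : C(T N, ℂ) => ∫ x, G x ∂ν) := by
    intro ν _
    refine (LipschitzWith.of_dist_le_mul (K := (ν Set.univ).toNNReal) fun G G' => ?_).continuous
    rw [dist_eq_norm, ← integral_sub (hint ν G) (hint ν G')]
    have h1 : ∀ x, ‖G x - G' x‖ ≤ dist G G' := by
      intro x
      rw [← dist_eq_norm]
      exact ContinuousMap.dist_apply_le_dist x
    have h2 := norm_integral_le_of_norm_le_const (μ := ν) (f := fun x => G x - G' x)
      (Eventually.of_forall h1)
    refine h2.trans (le_of_eq ?_)
    rw [mul_comm]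
    rfl
  have key : ∀ G : C(T N, ℂ), ∫ x, G x ∂ν₁ = ∫ x, G x ∂ν₂ := by
    let W : Submodule ℂ C(T N, ℂ) :=
      { carrier := {G | ∫ x, G x ∂ν₁ = ∫ x, G x ∂ν₂}
        add_mem' := by
          intro G G' h1 h2
          simp only [Set.mem_ofPred_eq, ContinuousMap.add_apply] at h1 h2 ⊢
          rw [integral_add (hint ν₁ G) (hint ν₁ G'), integral_add (hint ν₂ G) (hint ν₂ G'), h1, h2]
        zero_mem' := by simp
        smul_mem' := by
          intro c G h1
          simp only [Set.mem_ofPred_eq, ContinuousMap.smul_apply, smul_eq_mul] at h1 ⊢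
          rw [integral_const_mul, integral_const_mul, h1] }
    have hW1 : Submodule.span ℂ (Set.range (mFourier (d := Fin N))) ≤ W := by
      rw [Submodule.span_le]
      rintro _ ⟨X, rfl⟩
      exact h X
    have hWc : IsClosed (W : Set C(T N, ℂ)) := isClosed_eq (hcont ν₁) (hcont ν₂)
    intro G
    have h1 : (Submodule.span ℂ (Set.range (mFourier (d := Fin N)))).topologicalClosure ≤ W :=
      Submodule.topologicalClosure_minimal _ hW1 hWc
    rw [UnitAddTorus.span_mFourier_closure_eq_top] at h1
    exact h1 trivial
  refine ext_of_forall_integral_eq_of_IsFiniteMeasure fun f => ?_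
  have h1 := key ⟨fun x => (f x : ℂ), Complex.continuous_ofReal.comp f.continuous⟩
  simp only [ContinuousMap.coe_mk] at h1
  rw [integral_complex_ofReal, integral_complex_ofReal] at h1
  exact_mod_cast h1

/-- the increments of the characters of level `k` -/
theorem ex_iter {f : Fin N → T N → U} (hf : Tow lev f) {k : ℕ} {d : Fin N → ℤ} (hd : la lev k d)
    (n : ℕ) : ∃ G : T N → ℂ, Measurable G ∧
      ∀ x, ex d ((SS f)^[n] x) = ex d x * G (tr lev k x) := by
  induction n with
  | zero => exact ⟨fun _ => 1, measurable_const, fun x => by simp⟩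
  | succ n ih =>
    obtain ⟨G, hG, hGx⟩ := ih
    refine ⟨fun y => G y * (AddCircle.toCircle (af d f ((SS f)^[n] y)) : ℂ), ?_, fun x => ?_⟩
    · refine hG.mul ?_
      exact (continuous_subtype_val.comp AddCircle.continuous_toCircle).measurable.comp
        ((af_meas hf d).comp ((SS_measurable hf).iterate n))
    · rw [Function.iterate_succ_apply', ex_SS, hGx, mul_assoc]
      have h1 : af d f ((SS f)^[n] x) = af d f ((SS f)^[n] (tr lev k x)) := by
        rw [← af_dep hf hd, ← af_dep hf hd ((SS f)^[n] (tr lev k x)), tr_iter hf]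
      rw [h1]

theorem ex_split (a : Fin N → ℤ) (k : ℕ) (x : T N) :
    ex a (tr lev (k + 1) x) =
      ex (fun i => if lev i < k then a i else 0) (tr lev k x) *
        ex (fun i => if lev i = k then a i else 0) x := by
  rw [ex_prod, ex_prod, ex_prod, ← Finset.prod_mul_distrib]
  refine Finset.prod_congr rfl fun i _ => ?_
  rcases lt_trichotomy (lev i) k with h | h | h
  · simp [tr, h, h.ne, Nat.lt_succ_of_lt h]
  · simp [tr, h]
  · have h1 : ¬ lev i < k + 1 := by omega
    have h2 : ¬ lev i < k := by omega
    have h3 : ¬ lev i = k := by omega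
    simp [tr, h1, h2, h3]

theorem ex_pk (a : Fin N → ℤ) (k : ℕ) (t : T N) (h : ∀ i, lev i = k → a i = 0) :
    ex a (pk lev k t) = 1 := by
  rw [ex_prod]
  refine Finset.prod_eq_one fun i _ => ?_
  by_cases hi : lev i = k
  · simp [h i hi]
  · simp [pk, hi]

theorem pk_measurable (k : ℕ) (t : T N) : Measurable (Vp lev k t) :=
  (measurable_fst.add_const _).prodMk measurable_snd

theorem int_fiber {κ : Measure (T N × T N)} [IsFiniteMeasure κ] {φ : T N × T N → T N × T N}
    (hφ : Measurable φ) {B : Set (T N)} (hB : MeasurableSet B) (a : Fin N → ℤ) :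
    ∫ x, ex a x ∂(((κ.map φ).restrict (Prod.snd ⁻¹' B)).map Prod.fst) =
      ∫ z, B.indicator (fun _ => (1 : ℂ)) (φ z).2 * ex a (φ z).1 ∂κ := by
  rw [integral_map measurable_fst.aemeasurable (ex_cont a).aestronglyMeasurable,
    ← integral_indicator (measurable_snd hB)]
  rw [integral_map hφ.aemeasurable]
  · refine integral_congr_ae (Eventually.of_forall fun z => ?_)
    by_cases h : (φ z).2 ∈ B
    · simp [Set.indicator, h]
    · simp [Set.indicator, h]
  · exact (((ex_meas a).comp measurable_fst).indicator (measurable_snd hB)).aestronglyMeasurable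

theorem VIN (hLZ : ST_LZ) : ST_VIN := by
  intro N lev f f' p q κ hT hJ k j hd
  have := hJ.prob
  have hφ := trp_measurable (lev := lev) (k + 1) j
  have : IsProbabilityMeasure (κ.map (trp lev (k + 1) j)) :=
    Measure.isProbabilityMeasure_map hφ.aemeasurable
  refine ⟨?_, ?_, ?_⟩
  · intro z
    refine Prod.ext ?_ rfl
    funext i
    change z.1 i + (if lev i = k then (0 : T N) i else 0) = z.1 i
    simp
  · intro s t z
    refine Prod.ext ?_ rfl
    funext i
    change z.1 i + (if lev i = k then (s + t) i else 0) =
      z.1 i + (if lev i = k then t i else 0) + (if lev i = k then s i else 0)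
    by_cases h : lev i = k
    · simp only [h, if_true, Pi.add_apply]
      abel
    · simp [h]
  intro t
  have hV := pk_measurable (lev := lev) k t
  refine ⟨hV, ?_⟩
  rw [Measure.map_map hV hφ]
  have : IsFiniteMeasure (κ.map (Vp lev k t ∘ trp lev (k + 1) j)) :=
    Measure.isFiniteMeasure_map _ _
  refine Measure.ext_prod fun {A B} hA hB => ?_
  have key : ((κ.map (Vp lev k t ∘ trp lev (k + 1) j)).restrict (Prod.snd ⁻¹' B)).map Prod.fst =
      ((κ.map (trp lev (k + 1) j)).restrict (Prod.snd ⁻¹' B)).map Prod.fst := by
    refine measure_ext_ex fun a => ?_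
    rw [int_fiber (hV.comp hφ) hB, int_fiber hφ hB]
    set c : Fin N → ℤ := fun i => if lev i < k then a i else 0 with hc
    set d : Fin N → ℤ := fun i => if lev i = k then a i else 0 with hdd
    have e1 : ∀ z : T N × T N, B.indicator (fun _ => (1 : ℂ)) ((Vp lev k t ∘ trp lev (k + 1) j) z).2 *
        ex a ((Vp lev k t ∘ trp lev (k + 1) j) z).1 = ex a (pk lev k t) *
          (B.indicator (fun _ => (1 : ℂ)) (trp lev (k + 1) j z).2 *
            ex a (trp lev (k + 1) j z).1) := by
      intro z
      change B.indicator (fun _ => (1 : ℂ)) (trp lev (k + 1) j z).2 *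
        ex a ((trp lev (k + 1) j z).1 + pk lev k t) = _
      rw [ex_addx]
      ring
    simp_rw [e1]
    rw [integral_const_mul]
    by_cases h0 : d = 0
    · rw [ex_pk, one_mul]
      intro i hi
      have := congrFun h0 i
      simpa [hdd, hi] using this
    · have hla : la lev k d := by
        intro i hi
        by_contra hne
        exact hi (by simp [hdd, hne])
      have hTRM := TRM N lev f f' p q κ hT hJ k j
      obtain ⟨-, -, -, hS, hI, hjo⟩ := hTRM
      have huf : UF κ (fun z : T N × T N => ex d z.1) :=
        ⟨(ex_meas d).comp measurable_fst, Eventually.of_forall fun z => ex_norm d z.1⟩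
      have hinc : Inc κ (jo (A1 lev k) (B1 lev j)) (Prod.map (SS f)^[p] (SS f)^[q])
          (fun z : T N × T N => ex d z.1) := by
        obtain ⟨G, hG, hGx⟩ := ex_iter hT.t hla p
        unfold Inc
        rw [hjo]
        have e2 : (fun z : T N × T N => ex d (Prod.map (SS f)^[p] (SS f)^[q] z).1 *
            conj (ex d z.1)) = (fun w : T N × T N => G w.1) ∘ trp lev k j := by
          funext z
          change ex d ((SS f)^[p] z.1) * conj (ex d z.1) = G (tr lev k z.1)
          rw [hGx]
          linear_combination G (tr lev k z.1) * ex_mul_conj d z.1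
        rw [e2]
        exact am_of ((hG.comp measurable_fst).comp (comap_measurable _))
      have hz : κ[fun z : T N × T N => ex d z.1|jo (A1 lev k) (B1 lev j)] =ᵐ[κ] 0 := by
        rcases hLZ _ κ _ _ _ _ hS hJ.erg hI huf hinc with h | h
        · exact h
        · exact absurd h (hd d h0 hla)
      have hAM : AM κ (jo (A1 lev k) (B1 lev j)) (fun z : T N × T N =>
          B.indicator (fun _ => (1 : ℂ)) (tr lev j z.2) * ex c (tr lev k z.1)) := by
        rw [hjo]
        have e3 : (fun z : T N × T N =>
            B.indicator (fun _ => (1 : ℂ)) (tr lev j z.2) * ex c (tr lev k z.1)) =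
            (fun w : T N × T N => B.indicator (fun _ => (1 : ℂ)) w.2 * ex c w.1) ∘
              trp lev k j := rfl
        rw [e3]
        refine am_of (Measurable.comp ?_ (comap_measurable _))
        exact ((measurable_const.indicator hB).comp measurable_snd).mul
          ((ex_meas c).comp measurable_fst)
      have e4 : ∀ z : T N × T N, B.indicator (fun _ => (1 : ℂ)) (trp lev (k + 1) j z).2 *
            ex a (trp lev (k + 1) j z).1 =
          (B.indicator (fun _ => (1 : ℂ)) (tr lev j z.2) * ex c (tr lev k z.1)) * ex d z.1 := by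
        intro z
        change B.indicator (fun _ => (1 : ℂ)) (tr lev j z.2) * ex a (tr lev (k + 1) z.1) = _
        rw [ex_split, mul_assoc]
      have hle : Lm (jo (A1 lev k) (B1 lev j)) := hI.1
      have hfin : IsFiniteMeasure (κ.trim hle) := isFiniteMeasure_trim hle
      have hsf : SigmaFinite (κ.trim hle) := IsFiniteMeasure.toSigmaFinite _
      have hint1 : Integrable (fun z : T N × T N => ex d z.1) κ := by
        refine Integrable.mono' (integrable_const (1 : ℝ)) huf.1.aestronglyMeasurable ?_
        filter_upwards [huf.2] with z hz using hz.le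
      have hint2 : Integrable (fun z : T N × T N =>
          (B.indicator (fun _ => (1 : ℂ)) (tr lev j z.2) * ex c (tr lev k z.1)) * ex d z.1) κ := by
        refine Integrable.mono' (integrable_const (1 : ℝ)) ?_ ?_
        · exact (AEStronglyMeasurable.mono hle hAM).mul huf.1.aestronglyMeasurable
        · refine Eventually.of_forall fun z => ?_
          rw [norm_mul, norm_mul, ex_norm, ex_norm, mul_one, mul_one]
          by_cases h : tr lev j z.2 ∈ B
          · simp [h]
          · simp [h]
      have hI0 : ∫ z, (B.indicator (fun _ => (1 : ℂ)) (trp lev (k + 1) j z).2 *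
            ex a (trp lev (k + 1) j z).1) ∂κ = 0 := by
        simp_rw [e4]
        rw [← integral_condExp hle]
        have h5 := pull hAM hint2 hint1
        have h6 : κ[fun z : T N × T N =>
          (B.indicator (fun _ => (1 : ℂ)) (tr lev j z.2) * ex c (tr lev k z.1)) * ex d z.1|
            jo (A1 lev k) (B1 lev j)] =ᵐ[κ] fun _ => 0 := by
          filter_upwards [h5, hz] with z h7 h8
          rw [h7, h8]
          simp
        rw [integral_congr_ae h6]
        simp
      rw [hI0, mul_zero]
  have h1 := DFunLike.congr_fun key A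
  rw [Measure.map_apply measurable_fst hA, Measure.map_apply measurable_fst hA,
    Measure.restrict_apply (measurable_fst hA), Measure.restrict_apply (measurable_fst hA)] at h1
  have e : A ×ˢ B = Prod.fst ⁻¹' A ∩ Prod.snd ⁻¹' B := rfl
  rw [e]
  exact h1

theorem st_VIN : ST_VIN := VIN (Pool.Agent.Helper13.TWR.st_LZ Pool.Agent.Helper73.TWR.st_CEC)

end Pool.Agent.Helper99.TWR
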